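import Mathlib
import Pool.Agent.V1136.Parab

/-!
# MP_960512: finitely generated soluble groups in `(𝔈𝔑, ∞)*` need not lie in `𝔈𝔑`
-/

set_option autoImplicit false

namespace Pool.Agent.Results.MP_960512_al.ParabolaDihedral

open Pool.Agent.V1136.Parab DihedralGroup

/-- The group `H` has a normal subgroup of finite exponent with nilpotent quotient. -/
def ExponentByNilpotent (H : Type) [Group H] : Prop :=
  ∃ (K : Subgroup H) (_ : K.Normal), (∃ e : ℕ, 0 < e ∧ ∀ k ∈ K, k ^ e = 1) ∧
    Group.IsNilpotent (H ⧸ K)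

/-- The sequence of dihedral groups. -/
def nn (k : ℕ) : ℕ := k + 1

theorem pow_left (β : B nn) (e : ℕ) : (SemidirectProduct.inl β : Gam nn) ^ e =
    SemidirectProduct.inl (β ^ e) := by
  rw [map_pow]

theorem eq_inl {g : Gam nn} (h : g.right = 1) : g = SemidirectProduct.inl g.left :=
  SemidirectProduct.ext rfl h

theorem pow_dihedral {k : ℕ} (x : DihedralGroup (nn k)) : x ^ (2 * nn k) = 1 := by
  have h := pow_card_eq_one' (x := x)
  rwa [DihedralGroup.nat_card] at h

theorem positive (H : Subgroup (G nn)) (K₀ : ℕ)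
    (h : ∀ g ∈ H, ∀ k : ℕ, K₀ < k → ∀ p, (g : Gam nn).left k p ^ 2 = 1) :
    ExponentByNilpotent H := by
  let f : H →* Multiplicative (ℤ × ℤ) :=
    (SemidirectProduct.rightHom : Gam nn →* Multiplicative (ℤ × ℤ)).comp
      ((G nn).subtype.comp H.subtype)
  refine ⟨f.ker, inferInstance, ⟨∏ k ∈ Finset.range (K₀ + 1), (2 * nn k),
    Finset.prod_pos fun k _ => by unfold nn; omega, ?_⟩, ?_⟩
  · rintro ⟨⟨g, hgG⟩, hg⟩ hk
    have h1 : g.right = 1 := hk
    apply Subtype.ext
    apply Subtype.ext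
    change g ^ _ = 1
    rw [eq_inl h1, pow_left]
    have h2 : g.left ^ (∏ k ∈ Finset.range (K₀ + 1), (2 * nn k)) = 1 := by
      funext k p
      change g.left k p ^ _ = 1
      by_cases hkK : k ≤ K₀
      · obtain ⟨q, hq⟩ := Finset.dvd_prod_of_mem (fun k => 2 * nn k)
          (Finset.mem_range.2 (Nat.lt_succ_of_le hkK))
        rw [hq, pow_mul, pow_dihedral, one_pow]
      · obtain ⟨q, hq⟩ := Finset.dvd_prod_of_mem (fun k => 2 * nn k)
          (Finset.mem_range.2 (Nat.succ_pos K₀))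
        have h3 := h ⟨g, hgG⟩ hg k (by omega) p
        rw [hq, mul_assoc, pow_mul]
        have h4 : g.left k p ^ 2 = 1 := h3
        rw [h4, one_pow]
    rw [h2, map_one]
  · refine Subgroup.isNilpotent_of_ker_le_center (QuotientGroup.kerLift f) ?_
    rw [(MonoidHom.ker_eq_bot_iff _).2 (QuotientGroup.kerLift_injective f)]
    exact bot_le

theorem negative : ¬ ExponentByNilpotent (G nn) := by
  rintro ⟨K, hK, ⟨e, he, hKe⟩, hnil⟩
  obtain ⟨c, hc⟩ := exists_zB_mem nn K hnil
  -- choose `k` large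
  set k : ℕ := e + c + 1 with hkdef
  have hk1 : 1 ≤ k := by omega
  have hN : c + 1 < Nn k := by
    have h1 := pow_four_lt k
    have h2 : k ≤ k ^ 4 := Nat.le_self_pow (by norm_num) k
    omega
  -- `yB c k` lies in `K`
  have hy : SemidirectProduct.inl (yB nn c k) ∈ G nn := by
    have h1 : (SemidirectProduct.inl (yB nn c k) : Gam nn) = SemidirectProduct.inl (zB nn c) *
        (tr nn ((k : ℤ), (k : ℤ) ^ 2) * SemidirectProduct.inl (zB nn c) *
          (tr nn ((k : ℤ), (k : ℤ) ^ 2))⁻¹) := by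
      rw [tr_conj, ← map_mul]; rfl
    rw [h1]
    exact mul_mem (zB_mem nn c) (mul_mem (mul_mem (tr_mem nn _) (zB_mem nn c))
      (inv_mem (tr_mem nn _)))
  have hyK : (⟨SemidirectProduct.inl (yB nn c k), hy⟩ : G nn) ∈ K := by
    have h1 : (⟨SemidirectProduct.inl (yB nn c k), hy⟩ : G nn) =
        ⟨SemidirectProduct.inl (zB nn c), zB_mem nn c⟩ *
        (⟨tr nn ((k : ℤ), (k : ℤ) ^ 2), tr_mem nn _⟩ *
          ⟨SemidirectProduct.inl (zB nn c), zB_mem nn c⟩ *
          ⟨tr nn ((k : ℤ), (k : ℤ) ^ 2), tr_mem nn _⟩⁻¹) := by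
      apply Subtype.ext
      change (SemidirectProduct.inl (yB nn c k) : Gam nn) = SemidirectProduct.inl (zB nn c) *
        (tr nn ((k : ℤ), (k : ℤ) ^ 2) * SemidirectProduct.inl (zB nn c) *
          (tr nn ((k : ℤ), (k : ℤ) ^ 2))⁻¹)
      rw [tr_conj, ← map_mul]; rfl
    rw [h1]
    exact mul_mem hc (hK.conj_mem _ hc _)
  have h2 := congrArg (fun x : G nn => (x : Gam nn).left k (pt k)) (hKe _ hyK)
  have h3 : (yB nn c k k (pt k)) ^ e = 1 := by
    have h4 : ((⟨SemidirectProduct.inl (yB nn c k), hy⟩ : G nn) ^ e : G nn) =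
        ⟨SemidirectProduct.inl (yB nn c k ^ e), by rw [map_pow]; exact pow_mem hy e⟩ := by
      apply Subtype.ext
      exact pow_left _ _
    rw [h4] at h2
    exact h2
  rw [yB_at_pt nn hk1 hN, r_pow] at h3
  have h5 : ((-1 : ZMod (nn k)) * e) = 0 := by
    have : (r (-1 * (e : ZMod (nn k))) : DihedralGroup (nn k)) = r 0 := h3
    exact DihedralGroup.r.inj this
  have h6 : ((e : ℕ) : ZMod (nn k)) = 0 := by
    have : -((e : ℕ) : ZMod (nn k)) = 0 := by rw [← h5]; ring
    exact neg_eq_zero.1 this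
  rw [ZMod.natCast_eq_zero_iff] at h6
  have h7 := Nat.le_of_dvd he h6
  unfold nn at h7
  omega

/-- There is a finitely generated soluble group `G` such that for every infinite subset `S` of `G`
there are distinct `x, y ∈ S` for which the subgroup generated by `x` and `y⁻¹ x y` has a normal
subgroup of finite exponent with nilpotent quotient, while `G` itself has no normal subgroup of
finite exponent with nilpotent quotient. -/
theorem result : ∃ (G : Type) (_ : Group G), Group.FG G ∧ Group.IsSolvable G ∧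
    (∀ S : Set G, S.Infinite → ∃ x ∈ S, ∃ y ∈ S, x ≠ y ∧
      ExponentByNilpotent (Subgroup.closure ({x, y⁻¹ * x * y} : Set G))) ∧
    ¬ ExponentByNilpotent G := by
  refine ⟨G nn, inferInstance, fg nn, solvable_G nn, fun S hS => ?_, negative⟩
  obtain ⟨x, hx⟩ := hS.nonempty
  obtain ⟨y, hy⟩ := (hS.diff (Set.finite_singleton x)).nonempty
  refine ⟨x, hx, y, hy.1, fun h => hy.2 (by simp [h]), ?_⟩
  obtain ⟨K₀, hK₀⟩ := exists_good nn x.2 y.2
  refine positive _ K₀ fun g hg k hk p => hK₀ _ ?_ k hk p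
  have h1 := Subgroup.mem_map_of_mem (G nn).subtype hg
  rw [MonoidHom.map_closure, Set.image_pair] at h1
  exact h1

end Pool.Agent.Results.MP_960512_al.ParabolaDihedral
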